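import Pool.Agent.W230.CB.Gen

/-!
# CB-CONV: from wave functions to Fock space
-/

set_option autoImplicit false

open MeasureTheory
open scoped ENNReal

namespace Pool.Agent.W230.CB

open Pool.Agent.W761.CB Pool.Agent.W975.CB

noncomputable section

section
variable {X : Type} [MeasureSpace X] [IsFiniteMeasure (volume : Measure X)]

lemma T_symm {M : ℕ} (Ψ : (Fin (M + 1) → X) → ℂ)
    (hs : ∀ (π : Equiv.Perm (Fin (M + 1))) (x : Fin (M + 1) → X), Ψ (x ∘ π) = Ψ x)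
    (i : Fin (M + 1)) (h : X → X) :
    ∫⁻ z, ‖Ψ (Function.update z i (h (z i))) - Ψ z‖ₑ ^ 2 =
      ∫⁻ z, ‖Ψ (Function.update z 0 (h (z 0))) - Ψ z‖ₑ ^ 2 := by
  rw [← lint_perm (Equiv.swap 0 i) (fun z => ‖Ψ (Function.update z 0 (h (z 0))) - Ψ z‖ₑ ^ 2)]
  refine lintegral_congr fun z => ?_
  have h1 : Function.update (z ∘ Equiv.swap 0 i) 0 (h ((z ∘ Equiv.swap 0 i) 0)) =
      (Function.update z i (h (z i))) ∘ Equiv.swap 0 i := by
    rw [Function.update_comp_equiv]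
    simp
  rw [h1, hs, hs]

lemma cons_ms (M : ℕ) (x : X) (y : Fin M → X) :
    x ::ₘ ms (⟨M, y⟩ : Cf X) = ms (⟨M + 1, Fin.cons x y⟩ : Cf X) := by
  rw [← ms_cs]
  rfl

lemma dE_eq {M : ℕ} (Ψ : (Fin (M + 1) → X) → ℂ)
    (hs : ∀ (π : Equiv.Perm (Fin (M + 1))) (x : Fin (M + 1) → X), Ψ (x ∘ π) = Ψ x) (x' x : X) :
    dE volume (FK Ψ) x' x = ((M + 1 : ℕ) : ℝ≥0∞) *
      ∫⁻ y : Fin M → X, ‖Ψ (Fin.cons x' y) - Ψ (Fin.cons x y)‖ₑ ^ 2 := by
  unfold dE
  rw [nE_sector volume M]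
  · simp_rw [cons_ms, FK_ms Ψ hs, ← mul_sub, enorm_sqrt_mul]
    rw [lintegral_const_mul' _ _ (ENNReal.natCast_ne_top _), ← mul_assoc, fact_mul]
    rfl
  · intro S hS
    rw [FK_zero Ψ _ (by rw [Multiset.card_cons]; omega),
      FK_zero Ψ _ (by rw [Multiset.card_cons]; omega), sub_zero]

lemma nE_an_eq {M : ℕ} (Ψ : (Fin (M + 1) → X) → ℂ)
    (hs : ∀ (π : Equiv.Perm (Fin (M + 1))) (x : Fin (M + 1) → X), Ψ (x ∘ π) = Ψ x) (x : X) :
    nE volume (an x (FK Ψ)) = ((M + 1 : ℕ) : ℝ≥0∞) *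
      ∫⁻ y : Fin M → X, ‖Ψ (Fin.cons x y)‖ₑ ^ 2 := by
  unfold an
  rw [nE_sector volume M]
  · simp_rw [cons_ms, FK_ms Ψ hs, enorm_sqrt_mul]
    rw [lintegral_const_mul' _ _ (ENNReal.natCast_ne_top _), ← mul_assoc, fact_mul]
    rfl
  · intro S hS
    exact FK_zero Ψ _ (by rw [Multiset.card_cons]; omega)

lemma nE_an2_eq {M : ℕ} (Ψ : (Fin (M + 2) → X) → ℂ)
    (hs : ∀ (π : Equiv.Perm (Fin (M + 2))) (x : Fin (M + 2) → X), Ψ (x ∘ π) = Ψ x) (x y : X) :
    nE volume (an y (an x (FK Ψ))) = (((M + 2) * (M + 1) : ℕ) : ℝ≥0∞) *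
      ∫⁻ w : Fin M → X, ‖Ψ (Fin.cons x (Fin.cons y w : Fin (M + 1) → X))‖ₑ ^ 2 := by
  unfold an
  rw [nE_sector volume M]
  · simp_rw [cons_ms, FK_ms Ψ hs, enorm_sqrt_mul]
    rw [lintegral_const_mul' _ _ (ENNReal.natCast_ne_top _), ← mul_assoc]
    have h1 : (M.factorial : ℝ≥0∞)⁻¹ * ((M + 1 + 1).factorial : ℝ≥0∞) =
        (((M + 2) * (M + 1) : ℕ) : ℝ≥0∞) := by
      rw [Nat.factorial_succ (M + 1)]
      push_cast
      rw [mul_left_comm]
      have := fact_mul M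
      push_cast at this
      rw [this]
      ring
    rw [h1]
    rfl
  · intro S hS
    exact FK_zero Ψ _ (by rw [Multiset.card_cons, Multiset.card_cons]; omega)

lemma nE_FK {N : ℕ} (Ψ : (Fin N → X) → ℂ)
    (hs : ∀ (π : Equiv.Perm (Fin N)) (x : Fin N → X), Ψ (x ∘ π) = Ψ x) :
    nE volume (FK Ψ) = ∫⁻ x, ‖Ψ x‖ₑ ^ 2 := by
  rw [nE_sector volume N _ (fun S hS => FK_zero Ψ S hS)]
  simp_rw [FK_ms Ψ hs, enorm_sqrt_mul]
  rw [lintegral_const_mul' _ _ (ENNReal.natCast_ne_top _), ← mul_assoc, ENNReal.inv_mul_cancel,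
    one_mul]
  · rfl
  · exact_mod_cast Nat.factorial_ne_zero N
  · exact ENNReal.natCast_ne_top _

lemma nuE_FK {N : ℕ} (Ψ : (Fin N → X) → ℂ)
    (hs : ∀ (π : Equiv.Perm (Fin N)) (x : Fin N → X), Ψ (x ∘ π) = Ψ x) (hm : Measurable Ψ)
    (hn : ∫⁻ x, ‖Ψ x‖ₑ ^ 2 = 1) : nuE volume (FK Ψ) = (N : ℝ≥0∞) := by
  unfold nuE
  rcases N with _ | M
  · have h1 : ∀ x, nE volume (an x (FK Ψ)) = 0 := by
      intro x
      refine nE_zero' _ _ fun S => ?_
      unfold an
      exact FK_zero Ψ _ (by rw [Multiset.card_cons]; omega)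
    simp [h1]
  · simp_rw [nE_an_eq Ψ hs]
    rw [lintegral_const_mul' _ _ (ENNReal.natCast_ne_top _), ← lint_cons M (fun z => ‖Ψ z‖ₑ ^ 2)
      (hm.enorm.pow_const 2), hn, mul_one]

/-- integrated difference -/
lemma int_dE {M : ℕ} (Ψ : (Fin (M + 1) → X) → ℂ)
    (hs : ∀ (π : Equiv.Perm (Fin (M + 1))) (x : Fin (M + 1) → X), Ψ (x ∘ π) = Ψ x)
    (hm : Measurable Ψ) (h : X → X) (hh : Measurable h) :
    ∫⁻ x, dE volume (FK Ψ) (h x) x = ((M + 1 : ℕ) : ℝ≥0∞) *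
      ∫⁻ z : Fin (M + 1) → X, ‖Ψ (Function.update z 0 (h (z 0))) - Ψ z‖ₑ ^ 2 := by
  simp_rw [dE_eq Ψ hs]
  rw [lintegral_const_mul' _ _ (ENNReal.natCast_ne_top _)]
  congr 1
  rw [lint_cons M (fun z => ‖Ψ (Function.update z 0 (h (z 0))) - Ψ z‖ₑ ^ 2)]
  · simp only [Fin.cons_zero, Fin.update_cons_zero]
  · exact ((hm.comp (upd_meas 0 h hh)).sub hm).enorm.pow_const 2

lemma dE_zero (Ψ : (Fin 0 → X) → ℂ) (x' x : X) : dE volume (FK Ψ) x' x = 0 := by
  unfold dE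
  refine nE_zero' _ _ fun S => ?_
  rw [FK_zero Ψ _ (by rw [Multiset.card_cons]; omega),
    FK_zero Ψ _ (by rw [Multiset.card_cons]; omega), sub_zero]

/-- the pair interaction -/
lemma pair_symm {M : ℕ} (Ψ : (Fin (M + 2) → X) → ℂ)
    (hs : ∀ (π : Equiv.Perm (Fin (M + 2))) (x : Fin (M + 2) → X), Ψ (x ∘ π) = Ψ x)
    (V : X → X → ℝ≥0∞) (i j : Fin (M + 2)) (hij : i ≠ j) :
    ∫⁻ z, V (z i) (z j) * ‖Ψ z‖ₑ ^ 2 = ∫⁻ z, V (z 0) (z 1) * ‖Ψ z‖ₑ ^ 2 := by
  obtain ⟨π, h0, h1⟩ : ∃ π : Equiv.Perm (Fin (M + 2)), π 0 = i ∧ π 1 = j := by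
    refine ⟨Equiv.swap 0 i * Equiv.swap 1 (Equiv.swap 0 i j), ?_, ?_⟩
    · rw [Equiv.Perm.mul_apply, Equiv.swap_apply_of_ne_of_ne (a := (1 : Fin (M + 2)))]
      · exact Equiv.swap_apply_left _ _
      · exact Fin.zero_ne_one
      · intro h
        have h2 := congrArg (Equiv.swap 0 i) h
        rw [Equiv.swap_apply_left, Equiv.swap_apply_self] at h2
        exact hij h2
    · rw [Equiv.Perm.mul_apply, Equiv.swap_apply_left, Equiv.swap_apply_self]
  rw [← lint_perm π (fun z => V (z 0) (z 1) * ‖Ψ z‖ₑ ^ 2)]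
  refine lintegral_congr fun z => ?_
  simp only [Function.comp_apply, h0, h1]
  rw [hs]

lemma count_pairs (N : ℕ) :
    (∑ i : Fin N, (Finset.univ.filter fun j => i < j).card) * 2 = N * (N - 1) := by
  have h1 : ∀ i : Fin N, (Finset.univ.filter fun j => i < j).card = N - 1 - (i : ℕ) := by
    intro i
    rw [← Fin.card_Ioi]
    congr 1
    ext j
    simp
  simp_rw [h1]
  rw [Fin.sum_univ_eq_sum_range (fun k => N - 1 - k) N, Finset.sum_range_reflect (fun k => k) N,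
    Finset.sum_range_id_mul_two]

lemma Vp_gen {N : ℕ} (Ψ : (Fin N → X) → ℂ)
    (hs : ∀ (π : Equiv.Perm (Fin N)) (x : Fin N → X), Ψ (x ∘ π) = Ψ x) (hm : Measurable Ψ)
    (V : X → X → ℝ≥0∞) (hV : Measurable fun p : X × X => V p.1 p.2) :
    2⁻¹ * ∫⁻ x, ∫⁻ y, V x y * nE volume (an y (an x (FK Ψ))) =
      ∫⁻ x, (∑ i : Fin N, ∑ j ∈ Finset.univ.filter fun j => i < j, V (x i) (x j)) *
        ‖Ψ x‖ₑ ^ 2 := by
  by_cases hN : N ≤ 1
  · have h1 : ∀ x y, nE volume (an y (an x (FK Ψ))) = 0 := by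
      intro x y
      refine nE_zero' _ _ fun S => ?_
      unfold an
      exact FK_zero Ψ _ (by rw [Multiset.card_cons, Multiset.card_cons]; omega)
    have h2 : ∀ x : Fin N → X,
        (∑ i : Fin N, ∑ j ∈ Finset.univ.filter fun j => i < j, V (x i) (x j)) = 0 := by
      intro x
      refine Finset.sum_eq_zero fun i _ => Finset.sum_eq_zero fun j hj => ?_
      have h3 := (Finset.mem_filter.mp hj).2
      have h4 := i.2
      have h5 := j.2
      have h6 : (i : ℕ) < j := h3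
      omega
    simp [h1, h2]
  obtain ⟨M, rfl⟩ : ∃ M, N = M + 2 := ⟨N - 2, by omega⟩
  have hVm : ∀ i j : Fin (M + 2), Measurable fun z : Fin (M + 2) → X => V (z i) (z j) *
      ‖Ψ z‖ₑ ^ 2 := by
    intro i j
    have h1 : Measurable fun z : Fin (M + 2) → X => (z i, z j) :=
      (measurable_pi_apply i).prodMk (measurable_pi_apply j)
    have h2 : Measurable fun z : Fin (M + 2) → X => V (z i) (z j) := hV.comp h1
    exact h2.mul (hm.enorm.pow_const 2)
  set P : ℝ≥0∞ := ∫⁻ z, V (z 0) (z 1) * ‖Ψ z‖ₑ ^ 2 with hP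
  have hR : ∫⁻ x, (∑ i : Fin (M + 2), ∑ j ∈ Finset.univ.filter fun j => i < j, V (x i) (x j)) *
        ‖Ψ x‖ₑ ^ 2 = ((∑ i : Fin (M + 2), (Finset.univ.filter fun j => i < j).card : ℕ) : ℝ≥0∞) *
        P := by
    simp_rw [Finset.sum_mul]
    rw [lintegral_finsetSum _ fun i _ => Finset.measurable_fun_sum _ fun j _ => hVm i j]
    push_cast
    rw [Finset.sum_mul]
    refine Finset.sum_congr rfl fun i _ => ?_
    rw [lintegral_finsetSum _ fun j _ => hVm i j]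
    rw [Finset.sum_congr rfl (g := fun _ => P)]
    · rw [Finset.sum_const, nsmul_eq_mul]
    · intro j hj
      exact pair_symm Ψ hs V i j ((Finset.mem_filter.mp hj).2).ne
  have hL : ∫⁻ x, ∫⁻ y, V x y * nE volume (an y (an x (FK Ψ))) =
      (((M + 2) * (M + 1) : ℕ) : ℝ≥0∞) * P := by
    simp_rw [nE_an2_eq Ψ hs]
    have h1 : ∀ x y, V x y * ((((M + 2) * (M + 1) : ℕ) : ℝ≥0∞) *
        ∫⁻ w : Fin M → X, ‖Ψ (Fin.cons x (Fin.cons y w : Fin (M + 1) → X))‖ₑ ^ 2) =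
        (((M + 2) * (M + 1) : ℕ) : ℝ≥0∞) *
        ∫⁻ w : Fin M → X, V x y * ‖Ψ (Fin.cons x (Fin.cons y w : Fin (M + 1) → X))‖ₑ ^ 2 := by
      intro x y
      rw [lintegral_const_mul]
      · ring
      · have h2 : Measurable fun w : Fin M → X => (Fin.cons x (Fin.cons y w : Fin (M + 1) → X) :
            Fin (M + 2) → X) :=
          (cons_meas (M + 1)).comp (measurable_const.prodMk ((cons_meas M).comp
            (measurable_const.prodMk measurable_id)))
        exact (hm.comp h2).enorm.pow_const 2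
    simp_rw [h1]
    simp_rw [lintegral_const_mul' _ _ (ENNReal.natCast_ne_top _)]
    congr 1
    rw [hP, lint_cons (M + 1) _ (hVm 0 1)]
    refine lintegral_congr fun x => ?_
    have h3 : Measurable fun z' : Fin (M + 1) → X =>
        V ((Fin.cons x z' : Fin (M + 2) → X) 0) ((Fin.cons x z' : Fin (M + 2) → X) 1) *
          ‖Ψ (Fin.cons x z')‖ₑ ^ 2 :=
      (hVm 0 1).comp ((cons_meas (M + 1)).comp (measurable_const.prodMk measurable_id))
    rw [lint_cons M _ h3]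
    rfl
  rw [hL, hR]
  have hc := count_pairs (M + 2)
  have hc' : ((M + 2) * (M + 1) : ℕ) =
      (∑ i : Fin (M + 2), (Finset.univ.filter fun j => i < j).card) * 2 := by
    rw [hc]
    rfl
  rw [hc']
  push_cast
  rw [mul_right_comm, mul_comm _ (2 : ℝ≥0∞), ← mul_assoc, ENNReal.inv_mul_cancel (by norm_num) (by norm_num),
    one_mul]

/-! ### the condensate -/

lemma ag_eq {M : ℕ} (Ψ : (Fin (M + 1) → X) → ℂ)
    (hs : ∀ (π : Equiv.Perm (Fin (M + 1))) (x : Fin (M + 1) → X), Ψ (x ∘ π) = Ψ x) :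
    nE volume (ag volume (fun _ => 1) (FK Ψ)) = ((M + 1 : ℕ) : ℝ≥0∞) *
      ∫⁻ y : Fin M → X, ‖∫ x, Ψ (Fin.cons x y)‖ₑ ^ 2 := by
  rw [nE_sector volume M]
  · have h1 : ∀ y : Fin M → X, ag volume (fun _ => 1) (FK Ψ) (ms (⟨M, y⟩ : Cf X)) =
        ((√((M + 1).factorial : ℝ) : ℝ) : ℂ) * ∫ x, Ψ (Fin.cons x y) := by
      intro y
      unfold ag
      simp_rw [cons_ms, FK_ms Ψ hs]
      simp only [Complex.ofReal_one, one_mul]
      rw [integral_const_mul]
    simp_rw [h1, enorm_sqrt_mul]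
    rw [lintegral_const_mul' _ _ (ENNReal.natCast_ne_top _), ← mul_assoc, fact_mul]
    rfl
  · intro S hS
    unfold ag
    have h1 : ∀ x, FK Ψ (x ::ₘ S) = 0 := fun x =>
      FK_zero Ψ _ (by rw [Multiset.card_cons]; omega)
    simp [h1]

lemma cond_symm {M : ℕ} (Ψ : (Fin (M + 1) → X) → ℂ)
    (hs : ∀ (π : Equiv.Perm (Fin (M + 1))) (x : Fin (M + 1) → X), Ψ (x ∘ π) = Ψ x)
    (i : Fin (M + 1)) :
    ∫ x, ∫ y, ((starRingEnd ℂ) (Ψ x) * Ψ (Function.update x i y)).re =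
      ∫ x, ∫ y, ((starRingEnd ℂ) (Ψ x) * Ψ (Function.update x 0 y)).re := by
  rw [← int_perm (Equiv.swap 0 i)
    (fun x => ∫ y, ((starRingEnd ℂ) (Ψ x) * Ψ (Function.update x 0 y)).re)]
  congr 1
  funext z
  congr 1
  funext y
  have h1 : Function.update (z ∘ Equiv.swap 0 i) 0 y =
      (Function.update z i y) ∘ Equiv.swap 0 i := by
    rw [Function.update_comp_equiv]
    simp
  rw [h1, hs, hs]

lemma cond_eq {M : ℕ} (Ψ : (Fin (M + 1) → X) → ℂ) (hm : Measurable Ψ)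
    (hb : ∃ C : ℝ, ∀ x, ‖Ψ x‖ ≤ C) :
    Integrable (fun w : Fin M → X => ‖∫ x, Ψ (Fin.cons x w)‖ ^ 2) ∧
    ∫ x, ∫ y, ((starRingEnd ℂ) (Ψ x) * Ψ (Function.update x 0 y)).re =
      ∫ w : Fin M → X, ‖∫ x, Ψ (Fin.cons x w)‖ ^ 2 := by
  obtain ⟨C, hC⟩ := hb
  have hC0 : 0 ≤ max C 0 := le_max_right _ _
  have hC' : ∀ x, ‖Ψ x‖ ≤ max C 0 := fun x => (hC x).trans (le_max_left _ _)
  set A : (Fin M → X) → ℂ := fun w => ∫ x, Ψ (Fin.cons x w) with hA
  have hAm : Measurable A := by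
    have h1 : StronglyMeasurable fun p : X × (Fin M → X) => Ψ (Fin.cons p.1 p.2) :=
      (hm.comp (cons_meas M)).stronglyMeasurable
    exact h1.integral_prod_left'.measurable
  have hslice : ∀ w : Fin M → X, Measurable fun x : X => Ψ (Fin.cons x w) := fun w =>
    hm.comp ((cons_meas M).comp (measurable_id.prodMk measurable_const))
  have hint : ∀ w : Fin M → X, Integrable fun x : X => Ψ (Fin.cons x w) := fun w =>
    (integrable_const (max C 0)).mono' (hslice w).aestronglyMeasurable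
      (Filter.Eventually.of_forall fun x => hC' _)
  set D : ℝ := max C 0 * (volume : Measure X).real Set.univ with hD
  have hAb : ∀ w, ‖A w‖ ≤ D := fun w =>
    norm_integral_le_of_norm_le_const (Filter.Eventually.of_forall fun x => hC' _)
  have hD0 : 0 ≤ D := by positivity
  have hI1 : Integrable (fun w : Fin M → X => ‖A w‖ ^ 2) := by
    refine (integrable_const (D ^ 2)).mono' (hAm.norm.pow_const 2).aestronglyMeasurable
      (Filter.Eventually.of_forall fun w => ?_)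
    rw [Real.norm_of_nonneg (by positivity)]
    exact pow_le_pow_left₀ (norm_nonneg _) (hAb w) 2
  refine ⟨hI1, ?_⟩
  -- the inner integral
  have hin : ∀ z : Fin (M + 1) → X,
      ∫ y, ((starRingEnd ℂ) (Ψ z) * Ψ (Function.update z 0 y)).re =
        ((starRingEnd ℂ) (Ψ z) * A (Fin.tail z)).re := by
    intro z
    have h1 : ∀ y, Function.update z 0 y = Fin.cons y (Fin.tail z) := by
      intro y
      conv_lhs => rw [← Fin.cons_self_tail z]
      rw [Fin.update_cons_zero]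
    simp_rw [h1]
    have h2 : Integrable fun y : X => (starRingEnd ℂ) (Ψ z) * Ψ (Fin.cons y (Fin.tail z)) :=
      (hint (Fin.tail z)).const_mul _
    have h3 := integral_re h2
    simp only [RCLike.re_to_complex] at h3
    rw [h3, integral_const_mul]
  simp_rw [hin]
  have htail : Measurable fun z : Fin (M + 1) → X => Fin.tail z :=
    measurable_pi_lambda _ fun j => measurable_pi_apply _
  have hI2 : Integrable fun z : Fin (M + 1) → X => ((starRingEnd ℂ) (Ψ z) * A (Fin.tail z)).re := by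
    have h1 : Measurable fun z : Fin (M + 1) → X => (starRingEnd ℂ) (Ψ z) * A (Fin.tail z) :=
      (Complex.continuous_conj.measurable.comp hm).mul (hAm.comp htail)
    refine (integrable_const (max C 0 * D)).mono'
      (Complex.measurable_re.comp h1).aestronglyMeasurable
      (Filter.Eventually.of_forall fun z => ?_)
    calc ‖((starRingEnd ℂ) (Ψ z) * A (Fin.tail z)).re‖
        ≤ ‖(starRingEnd ℂ) (Ψ z) * A (Fin.tail z)‖ := Complex.abs_re_le_norm _
      _ = ‖Ψ z‖ * ‖A (Fin.tail z)‖ := by rw [norm_mul, RCLike.norm_conj]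
      _ ≤ max C 0 * D := mul_le_mul (hC' z) (hAb _) (norm_nonneg _) hC0
  rw [int_cons M _ hI2]
  congr 1
  funext w
  simp only [Fin.tail_cons]
  have h2 : Integrable fun x : X => (starRingEnd ℂ) (Ψ (Fin.cons x w)) * A w :=
    ((LinearIsometryEquiv.integrable_comp_iff Complex.conjLIE).mpr (hint w)).mul_const _
  have h3 := integral_re h2
  simp only [RCLike.re_to_complex] at h3
  rw [h3, integral_mul_const, integral_conj]
  change ((starRingEnd ℂ) (A w) * A w).re = _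
  rw [← Complex.normSq_eq_conj_mul_self, Complex.ofReal_re, Complex.normSq_eq_norm_sq]

end

/-! ### the torus -/

theorem conv (hTF : S_TF) : S_CONV := by
  intro n L hL μ K v N Ψ hK hv hΨ
  obtain ⟨hm, hb, hs, hn⟩ := hΨ
  have hVm : Measurable fun p : Tor n L × Tor n L => v (tdist p.1 p.2) :=
    ((hTF n L).2.2.2.2.2.2.2 v hv).1
  have hadd : ∀ h : Tor n L, Measurable fun x : Tor n L => x + h := fun h => measurable_add_const h
  have hLn : (0 : ℝ) < L ^ n := pow_pos hL.out n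
  have hnu := nuE_FK Ψ hs hm hn
  have hEn : en μ K v (FK Ψ) = enN μ K v Ψ := by
    unfold en ken enN Vp
    rw [Vp_gen Ψ hs hm (fun x y => v (tdist x y)) hVm]
    congr 1
    rcases N with _ | M
    · unfold Kp Hp
      simp [dE_zero]
    · congr 1
      · congr 1
        unfold Kp
        have h1 : ∀ (c : Fin n) (k : ℕ), ∫⁻ x, dE volume (FK Ψ) (x + ec L c ((2 : ℝ)⁻¹ ^ k)) x =
            ((M + 1 : ℕ) : ℝ≥0∞) * ∫⁻ z : Fin (M + 1) → Tor n L,
              ‖Ψ (Function.update z 0 (z 0 + ec L c ((2 : ℝ)⁻¹ ^ k))) - Ψ z‖ₑ ^ 2 := fun c k =>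
          int_dE Ψ hs hm (fun x => x + ec L c ((2 : ℝ)⁻¹ ^ k)) (hadd _)
        have h2 : ∀ (i : Fin (M + 1)) (c : Fin n) (k : ℕ), ∫⁻ z : Fin (M + 1) → Tor n L,
            ‖Ψ (Function.update z i (z i + ec L c ((2 : ℝ)⁻¹ ^ k))) - Ψ z‖ₑ ^ 2 =
            ∫⁻ z : Fin (M + 1) → Tor n L,
              ‖Ψ (Function.update z 0 (z 0 + ec L c ((2 : ℝ)⁻¹ ^ k))) - Ψ z‖ₑ ^ 2 := fun i c k =>
          T_symm Ψ hs i (fun x => x + ec L c ((2 : ℝ)⁻¹ ^ k))
        simp_rw [h1, h2]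
        rw [Finset.sum_const, Finset.card_univ, Fintype.card_fin, nsmul_eq_mul, Finset.mul_sum]
        refine Finset.sum_congr rfl fun c _ => ?_
        rw [ENNReal.mul_iSup]
        congr 1
        funext k
        ring
      · unfold Hp
        congr 1
        have h1 : ∀ z : Fin n → ℝ, ∫⁻ x, dE volume (FK Ψ) (x + pr L z) x =
            ((M + 1 : ℕ) : ℝ≥0∞) * ∫⁻ x : Fin (M + 1) → Tor n L,
              ‖Ψ (Function.update x 0 (x 0 + pr L z)) - Ψ x‖ₑ ^ 2 := fun z =>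
          int_dE Ψ hs hm (fun x => x + pr L z) (hadd _)
        have h2 : ∀ (i : Fin (M + 1)) (z : Fin n → ℝ), ∫⁻ x : Fin (M + 1) → Tor n L,
            ‖Ψ (Function.update x i (x i + pr L z)) - Ψ x‖ₑ ^ 2 =
            ∫⁻ x : Fin (M + 1) → Tor n L,
              ‖Ψ (Function.update x 0 (x 0 + pr L z)) - Ψ x‖ₑ ^ 2 := fun i z =>
          T_symm Ψ hs i (fun x => x + pr L z)
        simp_rw [h1, h2]
        rw [Finset.sum_const, Finset.card_univ, Fintype.card_fin, nsmul_eq_mul,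
          ← lintegral_const_mul' _ _ (ENNReal.natCast_ne_top _)]
        refine lintegral_congr fun z => ?_
        ring
  rcases N with _ | M
  · have hc0 : condN Ψ = 0 := by
      unfold condN
      simp
    refine ⟨hc0.ge, FK Ψ, FK_eb Ψ hs hm hb, (nE_FK Ψ hs).trans hn, ?_, hEn, ?_⟩
    · rw [hnu]; simp
    · rw [hc0, mul_zero, ENNReal.ofReal_zero]
      refine nE_zero' _ _ fun S => ?_
      unfold ag
      have h1 : ∀ x, FK Ψ (x ::ₘ S) = 0 := fun x =>
        FK_zero Ψ _ (by rw [Multiset.card_cons]; omega)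
      simp [h1]
  · obtain ⟨hI, hQ⟩ := cond_eq Ψ hm hb
    set Q : ℝ := ∫ w : Fin M → Tor n L, ‖∫ x, Ψ (Fin.cons x w)‖ ^ 2 with hQdef
    have hQ0 : 0 ≤ Q := integral_nonneg fun w => by positivity
    have hcond : L ^ n * condN Ψ = (M + 1) * Q := by
      unfold condN
      simp_rw [cond_symm Ψ hs]
      rw [hQ, Finset.sum_const, Finset.card_univ, Fintype.card_fin, nsmul_eq_mul, ← mul_assoc,
        mul_inv_cancel₀ hLn.ne', one_mul]
      push_cast
      ring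
    have hc0 : 0 ≤ condN Ψ := by
      have h1 : 0 ≤ L ^ n * condN Ψ := by rw [hcond]; positivity
      exact nonneg_of_mul_nonneg_right h1 hLn
    refine ⟨hc0, FK Ψ, FK_eb Ψ hs hm hb, (nE_FK Ψ hs).trans hn, ?_, hEn, ?_⟩
    · rw [hnu, ENNReal.ofReal_natCast]
    · rw [ag_eq Ψ hs, hcond, ENNReal.ofReal_mul (by positivity), hQdef,
        ofReal_integral_eq_lintegral_ofReal hI (Filter.Eventually.of_forall fun w => by positivity)]
      have h1 : ENNReal.ofReal ((M : ℝ) + 1) = ((M + 1 : ℕ) : ℝ≥0∞) := by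
        rw [← ENNReal.ofReal_natCast]
        push_cast
        rfl
      rw [h1]
      congr 1
      refine lintegral_congr fun w => ?_
      rw [← ofReal_norm, ENNReal.ofReal_pow (norm_nonneg _)]

end

end Pool.Agent.W230.CB
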