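import Pool.Agent.W761.CB.Stms
import Pool.Agent.W975.CB.Ms

/-!
# CB-CONV: general lemmas on symmetric functions and sectors
-/

set_option autoImplicit false

open MeasureTheory
open scoped ENNReal

namespace Pool.Agent.W230.CB

open Pool.Agent.W761.CB Pool.Agent.W975.CB

noncomputable section

/-! ### permutations -/

lemma perm_of_ms {X : Type} {N : ℕ} (x y : Fin N → X)
    (h : ms (⟨N, x⟩ : Cf X) = ms (⟨N, y⟩ : Cf X)) : ∃ π : Equiv.Perm (Fin N), x = y ∘ π := by
  classical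
  have h1 : Multiset.map x Finset.univ.val = Multiset.map y Finset.univ.val := by
    rw [Fin.univ_val_map, Fin.univ_val_map]
    exact h
  have e : ∀ a : X, Nonempty ({i // x i = a} ≃ {i // y i = a}) := by
    intro a
    refine ⟨Fintype.equivOfCardEq ?_⟩
    have h2 := congrArg (Multiset.count a) h1
    rw [Multiset.count_map, Multiset.count_map] at h2
    rw [Fintype.card_subtype, Fintype.card_subtype]
    have h3 : ∀ z : Fin N → X, (Multiset.filter (fun i => a = z i) Finset.univ.val).card =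
        (Finset.univ.filter fun i => z i = a).card := by
      intro z
      rw [Finset.card_def, Finset.filter_val]
      congr 1
      exact Multiset.filter_congr fun i _ => eq_comm
    rw [h3, h3] at h2
    exact h2
  refine ⟨Equiv.ofFiberEquiv fun a => Classical.choice (e a), ?_⟩
  funext i
  exact (Equiv.ofFiberEquiv_map (fun a => Classical.choice (e a)) i).symm

lemma card_ms' {X : Type} (γ : Cf X) : Multiset.card (ms γ) = γ.1 := by
  unfold ms
  rw [Multiset.coe_card, List.length_ofFn]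

open Classical in
/-- the Fock space vector of a wave function -/
def FK {X : Type} {N : ℕ} (Ψ : (Fin N → X) → ℂ) : Multiset X → ℂ := fun S =>
  if h : ∃ x : Fin N → X, S = ms (⟨N, x⟩ : Cf X) then
    ((√(N.factorial : ℝ) : ℝ) : ℂ) * Ψ (Classical.choose h) else 0

lemma FK_ms {X : Type} {N : ℕ} (Ψ : (Fin N → X) → ℂ)
    (hs : ∀ (π : Equiv.Perm (Fin N)) (x : Fin N → X), Ψ (x ∘ π) = Ψ x) (x : Fin N → X) :
    FK Ψ (ms (⟨N, x⟩ : Cf X)) = ((√(N.factorial : ℝ) : ℝ) : ℂ) * Ψ x := by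
  classical
  have h : ∃ y : Fin N → X, ms (⟨N, x⟩ : Cf X) = ms (⟨N, y⟩ : Cf X) := ⟨x, rfl⟩
  unfold FK
  rw [dif_pos h]
  obtain ⟨π, hπ⟩ := perm_of_ms _ _ (Classical.choose_spec h)
  congr 1
  conv_rhs => rw [hπ]
  exact (hs π _).symm

lemma FK_zero {X : Type} {N : ℕ} (Ψ : (Fin N → X) → ℂ) (S : Multiset X)
    (h : Multiset.card S ≠ N) : FK Ψ S = 0 := by
  classical
  unfold FK
  rw [dif_neg]
  rintro ⟨x, rfl⟩
  exact h (card_ms' _)

lemma FK_bdd {X : Type} {N : ℕ} (Ψ : (Fin N → X) → ℂ) (C : ℝ) (hC : 0 ≤ C)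
    (h : ∀ x, ‖Ψ x‖ ≤ C) (S : Multiset X) : ‖FK Ψ S‖ ≤ √(N.factorial : ℝ) * C := by
  classical
  unfold FK
  split_ifs with hS
  · rw [norm_mul, Complex.norm_real, Real.norm_of_nonneg (Real.sqrt_nonneg _)]
    exact mul_le_mul_of_nonneg_left (h _) (Real.sqrt_nonneg _)
  · rw [norm_zero]
    positivity

lemma meas_of {X : Type} [MeasurableSpace X] {β : Type*} [MeasurableSpace β] {f : Cf X → β}
    (h : ∀ N, Measurable fun x : Fin N → X => f ⟨N, x⟩) : Measurable f := by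
  intro s hs
  refine MeasurableSpace.measurableSet_iInf.2 fun N => ?_
  exact h N hs

lemma FK_eb {X : Type} [MeasurableSpace X] {N : ℕ} (Ψ : (Fin N → X) → ℂ)
    (hs : ∀ (π : Equiv.Perm (Fin N)) (x : Fin N → X), Ψ (x ∘ π) = Ψ x) (hm : Measurable Ψ)
    (hb : ∃ C : ℝ, ∀ x, ‖Ψ x‖ ≤ C) : EB (FK Ψ) := by
  constructor
  · refine meas_of fun k => ?_
    by_cases hk : k = N
    · subst hk
      simp_rw [FK_ms Ψ hs]
      exact hm.const_mul _
    · have : ∀ x : Fin k → X, FK Ψ (ms (⟨k, x⟩ : Cf X)) = 0 := fun x =>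
        FK_zero Ψ _ (by rw [card_ms']; exact hk)
      simp_rw [this]
      exact measurable_const
  · obtain ⟨C, hC⟩ := hb
    refine ⟨√(N.factorial : ℝ) * max C 0, 1, by positivity, le_rfl, fun S => ?_⟩
    rw [one_pow, mul_one]
    exact FK_bdd Ψ _ (le_max_right _ _) (fun x => (hC x).trans (le_max_left _ _)) S

/-! ### sectors -/

lemma lint_lam {X : Type} [MeasurableSpace X] (ν : Measure X) (g : Cf X → ℝ≥0∞) :
    ∫⁻ γ, g γ ∂(lam ν) = ∑' N : ℕ, (N.factorial : ℝ≥0∞)⁻¹ *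
      ∫⁻ x : Fin N → X, g ⟨N, x⟩ ∂(Measure.pi fun _ => ν) := by
  unfold lam
  rw [lintegral_sum_measure]
  refine tsum_congr fun N => ?_
  rw [lintegral_smul_measure, smul_eq_mul]
  congr 1
  exact (mk_emb (X := X) N).lintegral_map g

/-- norm of a vector in the sector `M` -/
lemma nE_sector {X : Type} [MeasurableSpace X] (ν : Measure X) (M : ℕ) (G : Multiset X → ℂ)
    (hG : ∀ S, Multiset.card S ≠ M → G S = 0) :
    nE ν G = (M.factorial : ℝ≥0∞)⁻¹ *
      ∫⁻ x : Fin M → X, ‖G (ms (⟨M, x⟩ : Cf X))‖ₑ ^ 2 ∂(Measure.pi fun _ => ν) := by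
  unfold nE
  rw [lint_lam, tsum_eq_single M]
  intro k hk
  have h1 : ∀ x : Fin k → X, ‖G (ms (⟨k, x⟩ : Cf X))‖ₑ ^ 2 = 0 := by
    intro x
    rw [hG _ (by rw [card_ms']; exact hk)]
    simp
  simp_rw [h1]
  simp

lemma nE_zero' {X : Type} [MeasurableSpace X] (ν : Measure X) (G : Multiset X → ℂ)
    (hG : ∀ S, G S = 0) : nE ν G = 0 := by
  unfold nE
  simp [hG]

lemma fact_mul (M : ℕ) : (M.factorial : ℝ≥0∞)⁻¹ * ((M + 1).factorial : ℝ≥0∞) = ((M + 1 : ℕ) : ℝ≥0∞) := by
  rw [Nat.factorial_succ]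
  push_cast
  rw [mul_comm ((M : ℝ≥0∞) + 1), ← mul_assoc, ENNReal.inv_mul_cancel, one_mul]
  · exact_mod_cast Nat.factorial_ne_zero M
  · exact ENNReal.natCast_ne_top _

lemma enorm_sqrt_mul (N : ℕ) (z : ℂ) : ‖((√(N.factorial : ℝ) : ℝ) : ℂ) * z‖ₑ ^ 2 =
    (N.factorial : ℝ≥0∞) * ‖z‖ₑ ^ 2 := by
  rw [enorm_mul, mul_pow]
  congr 1
  rw [← ofReal_norm, Complex.norm_real, Real.norm_of_nonneg (Real.sqrt_nonneg _),
    ← ENNReal.ofReal_pow (Real.sqrt_nonneg _), Real.sq_sqrt (by positivity),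
    ENNReal.ofReal_natCast]

/-! ### change of variables -/

section
variable {X : Type} [MeasureSpace X] [IsFiniteMeasure (volume : Measure X)]

/-- permutation of the coordinates -/
def pe {N : ℕ} (π : Equiv.Perm (Fin N)) : (Fin N → X) ≃ᵐ (Fin N → X) :=
  MeasurableEquiv.arrowCongr' π.symm (MeasurableEquiv.refl X)

lemma pe_apply {N : ℕ} (π : Equiv.Perm (Fin N)) (z : Fin N → X) : pe π z = z ∘ π := by
  rfl

lemma pe_mp {N : ℕ} (π : Equiv.Perm (Fin N)) :
    MeasurePreserving (pe (X := X) π) volume volume :=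
  volume_preserving_arrowCongr' π.symm (MeasurableEquiv.refl X) (MeasurePreserving.id volume)

lemma lint_perm {N : ℕ} (π : Equiv.Perm (Fin N)) (f : (Fin N → X) → ℝ≥0∞) :
    ∫⁻ z : Fin N → X, f (z ∘ π) = ∫⁻ z : Fin N → X, f z :=
  (pe_mp (X := X) π).lintegral_comp_emb (pe π).measurableEmbedding f

lemma int_perm {N : ℕ} (π : Equiv.Perm (Fin N)) (f : (Fin N → X) → ℝ) :
    ∫ z : Fin N → X, f (z ∘ π) = ∫ z : Fin N → X, f z :=
  (pe_mp (X := X) π).integral_comp' f

/-- first coordinate and the others -/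
def ce (X : Type) [MeasureSpace X] (M : ℕ) : (Fin (M + 1) → X) ≃ᵐ X × (Fin M → X) :=
  MeasurableEquiv.piFinSuccAbove (fun _ => X) 0

lemma ce_mp (M : ℕ) : MeasurePreserving (ce X M) volume volume :=
  volume_preserving_piFinSuccAbove (fun _ => X) 0

lemma ce_symm (M : ℕ) (x : X) (y : Fin M → X) : (ce X M).symm (x, y) = Fin.cons x y :=
  Fin.insertNth_zero' x y

lemma cons_meas (M : ℕ) : Measurable fun p : X × (Fin M → X) => (Fin.cons p.1 p.2 : Fin (M + 1) → X) := by
  have h := (ce X M).symm.measurable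
  have e : (fun p : X × (Fin M → X) => (Fin.cons p.1 p.2 : Fin (M + 1) → X)) = (ce X M).symm := by
    funext p
    rw [← ce_symm]
  rw [e]
  exact h

lemma lint_cons (M : ℕ) (f : (Fin (M + 1) → X) → ℝ≥0∞) (hf : Measurable f) :
    ∫⁻ z : Fin (M + 1) → X, f z = ∫⁻ x : X, ∫⁻ y : Fin M → X, f (Fin.cons x y) := by
  have h := (ce_mp (X := X) M).symm
  rw [← h.lintegral_comp hf]
  rw [Measure.volume_eq_prod, lintegral_prod]
  · simp_rw [ce_symm]
  · exact (hf.comp (ce X M).symm.measurable).aemeasurable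

lemma int_cons (M : ℕ) (f : (Fin (M + 1) → X) → ℝ) (hf : Integrable f) :
    ∫ z : Fin (M + 1) → X, f z = ∫ y : Fin M → X, ∫ x : X, f (Fin.cons x y) := by
  have h := (ce_mp (X := X) M).symm
  rw [← h.integral_comp']
  rw [Measure.volume_eq_prod, integral_prod_symm]
  · simp_rw [ce_symm]
  · have h2 := (h.integrable_comp_emb (ce X M).symm.measurableEmbedding (g := f)).mpr hf
    rw [Measure.volume_eq_prod] at h2
    exact h2

lemma upd_meas {N : ℕ} (i : Fin N) (h : X → X) (hh : Measurable h) :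
    Measurable fun z : Fin N → X => Function.update z i (h (z i)) :=
  measurable_update'.comp (measurable_id.prodMk (hh.comp (measurable_pi_apply i)))

end

end

end Pool.Agent.W230.CB
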